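import Pool.Agent.Zk47.C3.Def
import Pool.Agent.Y63.AWC.Deg

/-! Module D of helper47: local operators with determinant one. -/

set_option autoImplicit false
set_option linter.unusedSectionVars false
set_option linter.style.haveILetI false
set_option maxHeartbeats 400000

open scoped BigOperators Classical

noncomputable section

namespace Pool.Agent.Zk43.C3D

open Pool.Agent.H254R3.IN Pool.Agent.Zk54.MQ Pool.Agent.Zk47.C3

/-- the determinant of a rectangular matrix which is a square matrix -/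
def Dt {a b : ℕ} (M : Matrix (Fin a) (Fin b) ℂ) : ℂ :=
  if h : a = b then (M.submatrix (Fin.cast h.symm) id).det else 0

lemma Dt_sq {a : ℕ} (M : Matrix (Fin a) (Fin a) ℂ) : Dt M = M.det := by
  unfold Dt
  rw [dif_pos rfl]
  rfl

lemma Dt_mul {a b c : ℕ} (h1 : a = b) (h2 : b = c) (M : Matrix (Fin a) (Fin b) ℂ) (N : Matrix (Fin b) (Fin c) ℂ) :
    Dt (M * N) = Dt M * Dt N := by
  subst h1
  subst h2
  rw [Dt_sq, Dt_sq, Dt_sq, Matrix.det_mul]

lemma Dt_smul {a b : ℕ} (h : a = b) (r : ℂ) (M : Matrix (Fin a) (Fin b) ℂ) : Dt (r • M) = r ^ b * Dt M := by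
  subst h
  rw [Dt_sq, Dt_sq, Matrix.det_smul, Fintype.card_fin]

/-- two intertwiners differ by a scalar -/
lemma uniq {U : Type} [Group U] [Finite U] {a b : ℕ} (h : b = a) (R : U →* Matrix (Fin a) (Fin a) ℂ) {χ : U → ℂ}
    (hχ : IsIrr χ) (htr : ∀ u, (R u).trace = χ u) (R' : U → Matrix (Fin b) (Fin b) ℂ)
    (B C : Matrix (Fin b) (Fin a) ℂ) (hB : ∀ u, B * R u = R' u * B) (hC : ∀ u, C * R u = R' u * C)
    (dC : Dt C ≠ 0) : ∃ l : ℂ, B = l • C := by
  subst h
  rw [Dt_sq] at dC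
  have hu : IsUnit C.det := isUnit_iff_ne_zero.2 dC
  have h1 : C⁻¹ * C = 1 := Matrix.nonsing_inv_mul C hu
  have h2 : C * C⁻¹ = 1 := Matrix.mul_nonsing_inv C hu
  have h3 : ∀ u, C⁻¹ * R' u = R u * C⁻¹ := by
    intro u
    calc C⁻¹ * R' u = C⁻¹ * (R' u * C) * C⁻¹ := by
          rw [Matrix.mul_assoc, Matrix.mul_assoc, h2, Matrix.mul_one]
      _ = C⁻¹ * (C * R u) * C⁻¹ := by rw [hC]
      _ = R u * C⁻¹ := by rw [← Matrix.mul_assoc, h1, Matrix.one_mul]
  obtain ⟨l, hl⟩ := E3.schurM R hχ htr (C⁻¹ * B) (by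
    intro u
    rw [Matrix.mul_assoc, hB, ← Matrix.mul_assoc, h3, Matrix.mul_assoc])
  refine ⟨l, ?_⟩
  calc B = C * (C⁻¹ * B) := by rw [← Matrix.mul_assoc, h2, Matrix.one_mul]
    _ = l • C := by rw [hl, Matrix.mul_smul, Matrix.mul_one]

lemma trace_one {U : Type} [Group U] {a : ℕ} (R : U →* Matrix (Fin a) (Fin a) ℂ) : (R 1).trace = a := by
  rw [map_one, Matrix.trace_one, Fintype.card_fin]

theorem t_D : StD := by
  intro H U Ω _ _ _ _ _ β hβ g hg hinv
  choose n R htr _ using fun o => exists_mat (hg o)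
  have hn : ∀ o, 0 < n o := fun o => E3.pos_of_irr (R o) (hg o) (htr o)
  have hdvd : ∀ o, n o ∣ Nat.card U := by
    intro o
    have := Fintype.ofFinite U
    refine Pool.Agent.Y63.AWC.deg_dvd (hg o) ?_
    rw [← htr o 1, trace_one]
  have hdim : ∀ (x : H) (o : Ω), n (x • o) = n o := by
    intro x o
    have h1 := htr (x • o) 1
    have h2 := htr o 1
    rw [trace_one] at h1 h2
    have h3 := hinv x o 1
    rw [map_one] at h3
    rw [← h1, ← h2] at h3
    exact_mod_cast h3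
  -- the normalized intertwiners
  have hT : ∀ (x : H) (o : Ω), ∃ T : Matrix (Fin (n (x • o))) (Fin (n o)) ℂ,
      (∀ u, T * R o u = R (x • o) (β x o u) * T) ∧ Dt T = 1 := by
    intro x o
    obtain ⟨T, T', h1, h2⟩ := E3.exists_T (R o) ((R (x • o)).comp (β x o).toMonoidHom) (hg o) (htr o) (fun u => by
      rw [← hinv x o u]
      exact htr (x • o) (β x o u))
    have h3 : Dt T' * Dt T = 1 := by
      rw [← Dt_mul (hdim x o).symm (hdim x o), h1, Dt_sq, Matrix.det_one]
    have h4 : Dt T ≠ 0 := right_ne_zero_of_mul_eq_one h3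
    obtain ⟨s, hs⟩ := IsAlgClosed.exists_pow_nat_eq (Dt T)⁻¹ (hn o)
    refine ⟨s • T, fun u => ?_, ?_⟩
    · rw [Matrix.smul_mul, Matrix.mul_smul]
      congr 1
      exact h2 u
    · rw [Dt_smul (hdim x o), hs, inv_mul_cancel₀ h4]
  choose T hT1 hT2 using hT
  obtain ⟨A, hA⟩ : ∃ A : H → ∀ o o' : Ω, Matrix (Fin (n o')) (Fin (n o)) ℂ, ∀ (x : H) (o : Ω), A x o (x • o) = T x o :=
    ⟨fun x o o' => if h : x • o = o' then h ▸ T x o else 0, fun x o => dif_pos rfl⟩
  have hA1 : ∀ (x : H) (o o' : Ω), x • o = o' → ∀ u, A x o o' * R o u = R o' (β x o u) * A x o o' := by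
    intro x o o' h u
    subst h
    rw [hA]
    exact hT1 x o u
  have hA2 : ∀ (x : H) (o o' : Ω), x • o = o' → Dt (A x o o') = 1 := by
    intro x o o' h
    subst h
    rw [hA]
    exact hT2 x o
  have hnn : ∀ (x : H) (o o' : Ω), x • o = o' → n o' = n o := by
    intro x o o' h
    subst h
    exact hdim x o
  have hpw : ∀ (o : Ω) (r : ℂ), r ^ n o = 1 → r ≠ 0 ∧ r ^ (Nat.card U ^ 2) = 1 := by
    intro o r hr
    refine ⟨fun h0 => ?_, ?_⟩
    · rw [h0, zero_pow (hn o).ne'] at hr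
      exact zero_ne_one hr
    · obtain ⟨k, hk⟩ := (hdvd o).trans (Dvd.intro (Nat.card U) (pow_two (Nat.card U)).symm)
      rw [hk, pow_mul, hr, one_pow]
  have hl : ∀ (x y : H) (o : Ω), ∃ l : ℂ, l ^ n o = 1 ∧
      A x (y • o) (x • y • o) * A y o (y • o) = l • A (x * y) o (x • y • o) := by
    intro x y o
    have hxy : (x * y) • o = x • y • o := mul_smul x y o
    have d1 : Dt (A x (y • o) (x • y • o) * A y o (y • o)) = 1 := by
      rw [Dt_mul (hnn x (y • o) _ rfl) (hnn y o _ rfl), hA2 x (y • o) _ rfl, hA2 y o _ rfl, one_mul]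
    have d2 : Dt (A (x * y) o (x • y • o)) = 1 := hA2 _ _ _ hxy
    obtain ⟨l, hl⟩ := uniq (hnn (x * y) o _ hxy) (R o) (hg o) (htr o) (fun u => R (x • y • o) (β (x * y) o u))
      (A x (y • o) (x • y • o) * A y o (y • o)) (A (x * y) o (x • y • o)) (by
        intro u
        rw [Matrix.mul_assoc, hA1 y o _ rfl, ← Matrix.mul_assoc, hA1 x (y • o) _ rfl, Matrix.mul_assoc]
        congr 2
        rw [hβ]
        rfl) (hA1 _ _ _ hxy) (by rw [d2]; exact one_ne_zero)
    refine ⟨l, ?_, hl⟩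
    have h1 := congrArg Dt hl
    rw [d1, Dt_smul (hnn (x * y) o _ hxy), d2, mul_one] at h1
    exact h1.symm
  choose l hl1 hl2 using hl
  refine ⟨n, R, A, l, htr, hA1, fun x y o => hpw o _ (hl1 x y o), ?_, ?_⟩
  · intro x y o o' o'' h1 h2
    subst h1
    subst h2
    exact hl2 x y o
  · intro x o w hx hw
    have hdet : ∀ w : U, (R o w).det ^ Nat.card U = 1 := by
      intro w
      rw [← Matrix.det_pow, ← map_pow, pow_card_eq_one', map_one, Matrix.det_one]
    have hdet0 : (R o w).det ≠ 0 := by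
      intro h0
      have h1 := hdet w
      rw [h0, zero_pow Nat.card_pos.ne'] at h1
      exact zero_ne_one h1
    obtain ⟨r, hr⟩ := uniq rfl (R o) (hg o) (htr o) (fun u => R o (β x o u)) (A x o o) (R o w) (hA1 x o o hx) (by
      intro u
      rw [hw, ← map_mul, ← map_mul]
      congr 1
      group) (by rw [Dt_sq]; exact hdet0)
    have h1 := congrArg Dt hr
    rw [hA2 x o o hx, Dt_smul rfl, Dt_sq] at h1
    have h2 : r ^ (n o * Nat.card U) = 1 := by
      have h3 := congrArg (fun z => z ^ Nat.card U) h1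
      simp only [one_pow, mul_pow, hdet w, mul_one] at h3
      rw [pow_mul]
      exact h3.symm
    refine ⟨r, fun h0 => ?_, ?_, hr⟩
    · rw [h0, zero_pow (hn o).ne', zero_mul] at h1
      exact one_ne_zero h1
    · obtain ⟨k, hk⟩ := hdvd o
      have h3 : Nat.card U ^ 2 = n o * Nat.card U * k := by
        calc Nat.card U ^ 2 = Nat.card U * Nat.card U := pow_two _
          _ = (n o * k) * Nat.card U := by rw [← hk]
          _ = _ := by ring
      rw [h3, pow_mul, h2, one_pow]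

end Pool.Agent.Zk43.C3D
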