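import Mathlib

set_option autoImplicit false
set_option maxHeartbeats 400000

/-! Coverings of subsets of the circle by sets of small diameter (module for helper24). -/

namespace Pool.Agent.Zk43

open Set Classical

/-- `S` is covered by `c` sets of diameter at most `l` -/
def Cov (c : ℕ) (l : ℝ) (S : Set UnitAddCircle) : Prop :=
  ∃ f : Fin c → Set UnitAddCircle, S ⊆ ⋃ i, f i ∧ ∀ i, ∀ x ∈ f i, ∀ y ∈ f i, ‖x - y‖ ≤ l

theorem Cov.of_fintype {ι : Type*} [Fintype ι] {l : ℝ} {S : Set UnitAddCircle} (f : ι → Set UnitAddCircle)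
    (hS : S ⊆ ⋃ i, f i) (hf : ∀ i, ∀ x ∈ f i, ∀ y ∈ f i, ‖x - y‖ ≤ l) : Cov (Fintype.card ι) l S := by
  refine ⟨fun i => f ((Fintype.equivFin ι).symm i), fun x hx => ?_, fun i => hf _⟩
  obtain ⟨i, hi⟩ := mem_iUnion.1 (hS hx)
  refine mem_iUnion.2 ⟨Fintype.equivFin ι i, ?_⟩
  simpa using hi

theorem Cov.mono {c c' : ℕ} {l l' : ℝ} {S S' : Set UnitAddCircle} (h : Cov c l S) (hS : S' ⊆ S) (hc : c ≤ c')
    (hl : l ≤ l') : Cov c' l' S' := by
  obtain ⟨f, h1, h2⟩ := h
  refine ⟨fun i => if hi : (i : ℕ) < c then f ⟨i, hi⟩ else ∅, fun x hx => ?_, fun i x hx y hy => ?_⟩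
  · obtain ⟨i, hi⟩ := mem_iUnion.1 (h1 (hS hx))
    refine mem_iUnion.2 ⟨⟨i, i.2.trans_le hc⟩, ?_⟩
    simp only [i.2, dif_pos, Fin.eta]
    exact hi
  · by_cases hi : (i : ℕ) < c
    · simp only [hi, dif_pos] at hx hy
      exact (h2 _ x hx y hy).trans hl
    · simp only [hi, dif_neg, not_false_eq_true, mem_empty_iff_false] at hx

theorem Cov.union {c c' : ℕ} {l : ℝ} {S S' : Set UnitAddCircle} (h : Cov c l S) (h' : Cov c' l S') :
    Cov (c + c') l (S ∪ S') := by
  obtain ⟨f, h1, h2⟩ := h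
  obtain ⟨g, h3, h4⟩ := h'
  have h5 := Cov.of_fintype (ι := Fin c ⊕ Fin c') (l := l) (S := S ∪ S') (Sum.elim f g) (by
    rintro x (hx | hx)
    · obtain ⟨i, hi⟩ := mem_iUnion.1 (h1 hx)
      exact mem_iUnion.2 ⟨Sum.inl i, hi⟩
    · obtain ⟨i, hi⟩ := mem_iUnion.1 (h3 hx)
      exact mem_iUnion.2 ⟨Sum.inr i, hi⟩) (by
    rintro (i | i)
    · exact h2 i
    · exact h4 i)
  simpa using h5

theorem Cov.iUnion {ι : Type*} [Fintype ι] {c : ℕ} {l : ℝ} {S : ι → Set UnitAddCircle} (h : ∀ i, Cov c l (S i)) :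
    Cov (Fintype.card ι * c) l (⋃ i, S i) := by
  choose f h1 h2 using h
  have h5 := Cov.of_fintype (ι := ι × Fin c) (l := l) (S := ⋃ i, S i) (fun u => f u.1 u.2) (by
    intro x hx
    obtain ⟨i, hi⟩ := mem_iUnion.1 hx
    obtain ⟨j, hj⟩ := mem_iUnion.1 (h1 i hi)
    exact mem_iUnion.2 ⟨(i, j), hj⟩) (fun u => h2 u.1 u.2)
  simpa using h5

/-- multiplication by `m` expands small distances exactly -/
theorem norm_nsmul_of_le {m : ℕ} (hm : 1 ≤ m) {x : UnitAddCircle} (hx : ‖x‖ ≤ 1 / (2 * m)) : ‖m • x‖ = m * ‖x‖ := by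
  have hm0 : (0 : ℝ) < m := by exact_mod_cast hm
  induction x using QuotientAddGroup.induction_on with
  | H t =>
    obtain ⟨s, hs⟩ : ∃ s : ℝ, s = t - round t := ⟨_, rfl⟩
    have e1 : ((t : ℝ) : UnitAddCircle) = ((s : ℝ) : UnitAddCircle) := by
      rw [hs, AddCircle.coe_sub]
      have : (((round t : ℤ) : ℝ) : UnitAddCircle) = 0 := by
        rw [AddCircle.coe_eq_zero_iff]
        exact ⟨round t, by simp⟩
      rw [this, sub_zero]
    have e2 : ‖((s : ℝ) : UnitAddCircle)‖ = |s| := by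
      rw [← e1, UnitAddCircle.norm_eq, hs]
    change ‖((t : ℝ) : UnitAddCircle)‖ ≤ _ at hx
    change ‖m • ((t : ℝ) : UnitAddCircle)‖ = m * ‖((t : ℝ) : UnitAddCircle)‖
    rw [e1] at hx ⊢
    rw [e2] at hx ⊢
    rw [← AddCircle.coe_nsmul, nsmul_eq_mul]
    have e3 : |(m : ℝ) * s| = m * |s| := by rw [abs_mul, abs_of_pos hm0]
    rw [← e3, AddCircle.norm_coe_eq_abs_iff (p := (1 : ℝ)) one_ne_zero, e3]
    have h1 : (m : ℝ) * |s| ≤ m * (1 / (2 * m)) := mul_le_mul_of_nonneg_left hx hm0.le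
    have h2 : (m : ℝ) * (1 / (2 * m)) = |(1 : ℝ)| / 2 := by
      rw [abs_one]
      field_simp
    linarith

theorem Cov.pull {m K c : ℕ} {l : ℝ} {A S : Set UnitAddCircle} (hm : 1 ≤ m) (hA : Cov K (1 / (2 * m)) A)
    (hS : Cov c l S) : Cov (K * c) (l / m) {y | y ∈ A ∧ m • y ∈ S} := by
  have hm0 : (0 : ℝ) < m := by exact_mod_cast hm
  obtain ⟨f, h1, h2⟩ := hA
  obtain ⟨g, h3, h4⟩ := hS
  have h5 := Cov.of_fintype (ι := Fin K × Fin c) (l := l / m) (S := {y | y ∈ A ∧ m • y ∈ S})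
    (fun u => {y | y ∈ f u.1 ∧ m • y ∈ g u.2}) (by
      rintro y ⟨hy1, hy2⟩
      obtain ⟨i, hi⟩ := mem_iUnion.1 (h1 hy1)
      obtain ⟨j, hj⟩ := mem_iUnion.1 (h3 hy2)
      exact mem_iUnion.2 ⟨(i, j), hi, hj⟩) (by
      rintro u x ⟨hx1, hx2⟩ y ⟨hy1, hy2⟩
      have h6 := h2 _ x hx1 y hy1
      have h7 := h4 _ _ hx2 _ hy2
      rw [← smul_sub, norm_nsmul_of_le hm h6] at h7
      rw [le_div_iff₀ hm0, mul_comm]
      exact h7)
  simpa using h5

theorem cov_univ {m : ℕ} (hm : 1 ≤ m) : Cov (2 * m) (1 / (2 * m)) univ := by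
  have hm0 : (0 : ℝ) < m := by exact_mod_cast hm
  refine ⟨fun i => (fun t : ℝ => (t : UnitAddCircle)) '' Icc ((i : ℝ) / (2 * m)) (((i : ℝ) + 1) / (2 * m)),
    fun x _ => ?_, ?_⟩
  · obtain ⟨t, ht, rfl⟩ : ∃ t : ℝ, t ∈ Ico (0 : ℝ) 1 ∧ (t : UnitAddCircle) = x := by
      induction x using QuotientAddGroup.induction_on with
      | H t =>
        refine ⟨Int.fract t, ⟨Int.fract_nonneg t, Int.fract_lt_one t⟩, ?_⟩
        change ((Int.fract t : ℝ) : UnitAddCircle) = ((t : ℝ) : UnitAddCircle)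
        rw [← Int.self_sub_floor, AddCircle.coe_sub]
        have : (((⌊t⌋ : ℤ) : ℝ) : UnitAddCircle) = 0 := by
          rw [AddCircle.coe_eq_zero_iff]
          exact ⟨⌊t⌋, by simp⟩
        rw [this, sub_zero]
    have h1 : (0 : ℝ) ≤ 2 * m * t := by
      have := ht.1
      positivity
    have h2 : ⌊2 * m * t⌋₊ < 2 * m := by
      rw [Nat.floor_lt h1]
      push_cast
      have := ht.2
      nlinarith
    refine mem_iUnion.2 ⟨⟨⌊2 * m * t⌋₊, h2⟩, t, ⟨?_, ?_⟩, rfl⟩
    · rw [div_le_iff₀ (by positivity), mul_comm t]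
      exact Nat.floor_le h1
    · rw [le_div_iff₀ (by positivity), mul_comm t]
      exact (Nat.lt_floor_add_one _).le
  · rintro i _ ⟨s, hs, rfl⟩ _ ⟨t, ht, rfl⟩
    have h1 : |s - t| ≤ 1 / (2 * m) := by
      have e : ((i : ℝ) + 1) / (2 * m) = (i : ℝ) / (2 * m) + 1 / (2 * m) := add_div _ _ _
      have := hs.1
      have := hs.2
      have := ht.1
      have := ht.2
      rw [abs_le]
      constructor <;> linarith
    refine le_trans ?_ h1
    change ‖((s : ℝ) : UnitAddCircle) - ((t : ℝ) : UnitAddCircle)‖ ≤ _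
    rw [← AddCircle.coe_sub]
    have h2 : |s - t - round (s - t)| ≤ |s - t| := by
      have := round_le (s - t) 0
      simpa using this
    rw [UnitAddCircle.norm_eq]
    exact h2

/-- the points with at most `b` bad times below `T` -/
theorem cov_block {m K : ℕ} {A : Set UnitAddCircle} (hm : 1 ≤ m) (hA : Cov K (1 / (2 * m)) A) (T b : ℕ) :
    Cov ((K + 1) ^ T * (2 * m) ^ b) ((1 / (m : ℝ)) ^ T)
      {y | ((Finset.range T).filter fun t => m ^ t • y ∉ A).card ≤ b} := by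
  have hm0 : (0 : ℝ) < m := by exact_mod_cast hm
  induction T generalizing b with
  | zero =>
    have h1 : Cov 1 1 (univ : Set UnitAddCircle) :=
      ⟨fun _ => univ, fun x _ => mem_iUnion.2 ⟨0, mem_univ _⟩, fun _ x _ y _ =>
        ((AddCircle.norm_le_half_period 1 one_ne_zero).trans (by norm_num))⟩
    refine h1.mono (subset_univ _) ?_ (by simp)
    rw [pow_zero, one_mul]
    exact Nat.one_le_pow _ _ (by omega)
  | succ T ih =>
    have key : ∀ y : UnitAddCircle, ((Finset.range (T + 1)).filter fun t => m ^ t • y ∉ A).card =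
        ((Finset.range T).filter fun t => m ^ t • (m • y) ∉ A).card + if y ∉ A then 1 else 0 := by
      intro y
      rw [Finset.card_filter, Finset.card_filter, Finset.sum_range_succ']
      congr 1
      · apply Finset.sum_congr rfl
        intro t _
        rw [pow_succ, mul_smul]
      · rw [pow_zero, one_smul]
    have h1 : {y : UnitAddCircle | ((Finset.range (T + 1)).filter fun t => m ^ t • y ∉ A).card ≤ b} ⊆
        {y | y ∈ A ∧ m • y ∈ {y | ((Finset.range T).filter fun t => m ^ t • y ∉ A).card ≤ b}} ∪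
        {y | y ∈ (univ : Set UnitAddCircle) ∧ 1 ≤ b ∧
          m • y ∈ {y | ((Finset.range T).filter fun t => m ^ t • y ∉ A).card ≤ b - 1}} := by
      intro y hy
      rw [mem_setOf_eq, key] at hy
      by_cases hyA : y ∈ A
      · left
        refine ⟨hyA, ?_⟩
        rw [mem_setOf_eq]
        omega
      · right
        rw [if_pos hyA] at hy
        refine ⟨mem_univ _, by omega, ?_⟩
        rw [mem_setOf_eq]
        omega
    have hl : (1 / (m : ℝ)) ^ T / m = (1 / (m : ℝ)) ^ (T + 1) := by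
      rw [pow_succ]
      ring
    have h2 := Cov.pull hm hA (ih b)
    rw [hl] at h2
    rcases Nat.eq_zero_or_pos b with hb | hb
    · subst hb
      refine h2.mono ?_ ?_ le_rfl
      · intro y hy
        rcases h1 hy with h | ⟨_, h, _⟩
        · exact h
        · omega
      · rw [pow_zero, mul_one, mul_one, pow_succ, mul_comm]
        exact Nat.mul_le_mul_left _ (Nat.le_succ _)
    · have h3 := Cov.pull hm (cov_univ hm) (ih (b - 1))
      rw [hl] at h3
      have h4 := h2.union (h3.mono (S' := {y | y ∈ (univ : Set UnitAddCircle) ∧ 1 ≤ b ∧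
          m • y ∈ {y | ((Finset.range T).filter fun t => m ^ t • y ∉ A).card ≤ b - 1}})
          (fun y hy => ⟨hy.1, hy.2.2⟩) le_rfl le_rfl)
      refine h4.mono h1 ?_ le_rfl
      obtain ⟨b', rfl⟩ : ∃ b', b = b' + 1 := ⟨b - 1, by omega⟩
      rw [Nat.add_sub_cancel]
      apply le_of_eq
      ring

/-- the boxes `N² × N` -/
theorem cov_box {p q l K : ℕ} {A : Set UnitAddCircle} (hp : 1 ≤ p) (hq : 1 ≤ q) (hl : 1 ≤ l)
    (hA : Cov K (1 / (2 * (p ^ l : ℕ))) A) {N : ℕ} (hN : 1 ≤ N) (b : ℕ) {η : ℝ} (hb : η * N ^ 2 ≤ l * b) :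
    Cov (N * l * (2 * (p ^ l * q ^ N)) * ((K + 1) ^ (N ^ 2 / l) * (2 * p ^ l) ^ b)) ((1 / ((p ^ l : ℕ) : ℝ)) ^ (N ^ 2 / l))
      {x | (((Finset.range (N ^ 2) ×ˢ Finset.range N).filter fun u => (p ^ u.1 * q ^ u.2) • x ∉ A).card : ℝ) ≤
        η * N ^ 3} := by
  obtain ⟨T, hT⟩ : ∃ T, T = N ^ 2 / l := ⟨_, rfl⟩
  have hTN : l * T ≤ N ^ 2 := by
    rw [hT]
    exact Nat.mul_div_le _ _
  have hm : 1 ≤ p ^ l := Nat.one_le_pow _ _ (by omega)
  have hblock := cov_block hm hA T b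
  have hm0 : (0 : ℝ) < ((p ^ l : ℕ) : ℝ) := by exact_mod_cast hm
  rw [← hT]
  have h1 : ∀ u : Fin N × Fin l, Cov (2 * (p ^ l * q ^ N) * ((K + 1) ^ T * (2 * p ^ l) ^ b))
      ((1 / ((p ^ l : ℕ) : ℝ)) ^ T) {x : UnitAddCircle | x ∈ (univ : Set UnitAddCircle) ∧ (p ^ (u.2 : ℕ) * q ^ (u.1 : ℕ)) • x ∈
        {y : UnitAddCircle | ((Finset.range T).filter fun t => (p ^ l) ^ t • y ∉ A).card ≤ b}} := by
    intro u
    have hw : 1 ≤ p ^ (u.2 : ℕ) * q ^ (u.1 : ℕ) :=
      Nat.mul_pos (Nat.one_le_pow _ _ (by omega)) (Nat.one_le_pow _ _ (by omega))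
    have h2 := Cov.pull hw (cov_univ hw) hblock
    refine h2.mono subset_rfl ?_ ?_
    · apply Nat.mul_le_mul_right
      apply Nat.mul_le_mul_left
      exact Nat.mul_le_mul (Nat.pow_le_pow_right (by omega) u.2.2.le) (Nat.pow_le_pow_right (by omega) u.1.2.le)
    · apply div_le_self (by positivity)
      exact_mod_cast hw
  have h2 := Cov.iUnion h1
  rw [Fintype.card_prod, Fintype.card_fin, Fintype.card_fin, ← mul_assoc] at h2
  refine h2.mono ?_ le_rfl le_rfl
  intro x hx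
  rw [mem_setOf_eq] at hx
  by_contra hcon
  have h3 : ∀ u : Fin N × Fin l,
      b + 1 ≤ ((Finset.range T).filter fun t => (p ^ l) ^ t • ((p ^ (u.2 : ℕ) * q ^ (u.1 : ℕ)) • x) ∉ A).card := by
    intro u
    by_contra h
    apply hcon
    refine mem_iUnion.2 ⟨u, mem_univ _, ?_⟩
    rw [mem_setOf_eq]
    omega
  -- the total number of bad points
  have h4 : (N * l) * (b + 1) ≤
      ((Finset.range (N ^ 2) ×ˢ Finset.range N).filter fun u => (p ^ u.1 * q ^ u.2) • x ∉ A).card := by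
    have h5 : ∑ u : Fin N × Fin l,
        ((Finset.range T).filter fun t => (p ^ l) ^ t • ((p ^ (u.2 : ℕ) * q ^ (u.1 : ℕ)) • x) ∉ A).card ≤
        ((Finset.range (N ^ 2) ×ˢ Finset.range N).filter fun u => (p ^ u.1 * q ^ u.2) • x ∉ A).card := by
      rw [← Finset.card_sigma]
      apply Finset.card_le_card_of_injOn (fun v => ((v.1.2 : ℕ) + l * v.2, (v.1.1 : ℕ)))
      · rintro ⟨⟨j, r⟩, t⟩ hv
        simp only [Finset.coe_sigma, Finset.coe_univ, Finset.coe_filter, Finset.mem_range, Set.mem_sigma_iff,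
          Set.mem_univ, true_and, Set.mem_setOf_eq] at hv
        simp only [Finset.coe_filter, Finset.mem_product, Finset.mem_range, Set.mem_setOf_eq]
        refine ⟨⟨?_, j.2⟩, ?_⟩
        · have h6 : (r : ℕ) + l * t < l * (t + 1) := by
            rw [Nat.mul_succ]
            have := r.2
            omega
          have h7 : l * (t + 1) ≤ l * T := Nat.mul_le_mul_left _ hv.1
          omega
        · have e : p ^ ((r : ℕ) + l * t) * q ^ (j : ℕ) = (p ^ l) ^ t * (p ^ (r : ℕ) * q ^ (j : ℕ)) := by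
            rw [pow_add, pow_mul]
            ring
          rw [e, mul_smul]
          exact hv.2
      · rintro ⟨⟨j, r⟩, t⟩ _ ⟨⟨j', r'⟩, t'⟩ _ h
        simp only [Prod.mk.injEq] at h
        obtain ⟨h6, h7⟩ := h
        have h8 : j = j' := Fin.ext h7
        have hr := r.2
        have hr' := r'.2
        have h9 : (r : ℕ) = r' := by
          have := congrArg (· % l) h6
          simp only [Nat.add_mul_mod_self_left, Nat.mod_eq_of_lt hr, Nat.mod_eq_of_lt hr'] at this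
          exact this
        have h10 : t = t' := by
          rw [h9] at h6
          have h11 : l * t = l * t' := by omega
          exact Nat.eq_of_mul_eq_mul_left (by omega) h11
        subst h8
        have h12 : r = r' := Fin.ext h9
        subst h12
        subst h10
        rfl
    refine le_trans ?_ h5
    have h6 := Finset.card_nsmul_le_sum (Finset.univ : Finset (Fin N × Fin l)) (fun u =>
      ((Finset.range T).filter fun t => (p ^ l) ^ t • ((p ^ (u.2 : ℕ) * q ^ (u.1 : ℕ)) • x) ∉ A).card) (b + 1)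
      (fun u _ => h3 u)
    simpa using h6
  have h5 : ((N * l * (b + 1) : ℕ) : ℝ) ≤ η * N ^ 3 := by
    refine le_trans ?_ hx
    exact_mod_cast h4
  push_cast at h5
  have hN0 : (0 : ℝ) < N := by exact_mod_cast hN
  have hl0 : (0 : ℝ) < l := by exact_mod_cast hl
  have h6 : η * (N : ℝ) ^ 3 ≤ N * (l * b) := by
    have h8 : (N : ℝ) * (η * N ^ 2) ≤ N * (l * b) := mul_le_mul_of_nonneg_left hb hN0.le
    have h9 : η * (N : ℝ) ^ 3 = (N : ℝ) * (η * N ^ 2) := by ring
    rw [h9]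
    exact h8
  have h7 : (0 : ℝ) < N * l := by positivity
  nlinarith

end Pool.Agent.Zk43
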