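import Pool.Agent.N207.ZG.Basis
import Pool.Agent.N207.AX.Exp
import Pool.Agent.N878.AX.LINE
import Pool.Agent.N301.AX.IND
import Pool.Agent.N945.AX.ELL
import Pool.Agent.Y124.StdC

/-!
# Exponential points of one-parameter families of varieties: independence near a point
-/

set_option autoImplicit false

open Filter Topology

namespace Pool.Agent.Zk43.ExpOne

variable {Y : Type}

/-- the first variable becomes the parameter -/
noncomputable def psi (Y : Type) : MvPolynomial (Option Y) ℂ →+* MvPolynomial Y (MvPolynomial Unit ℂ) :=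
  MvPolynomial.eval₂Hom (MvPolynomial.C.comp MvPolynomial.C)
    (fun o => o.elim (MvPolynomial.C (MvPolynomial.X ())) MvPolynomial.X)

theorem psi_inj : Function.Injective (psi Y) := by
  let φ : MvPolynomial Y (MvPolynomial Unit ℂ) →+* MvPolynomial (Option Y) ℂ :=
    MvPolynomial.eval₂Hom (MvPolynomial.eval₂Hom MvPolynomial.C (fun _ => MvPolynomial.X none))
      (fun y => MvPolynomial.X (some y))
  have h1 : φ.comp (psi Y) = RingHom.id _ := by
    refine MvPolynomial.ringHom_ext (fun a => ?_) fun o => ?_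
    · simp [φ, psi]
    · rcases o with _ | y
      · simp [φ, psi]
      · simp [φ, psi]
  intro a b hab
  have h2 : φ (psi Y a) = φ (psi Y b) := congrArg φ hab
  have h3 : ∀ c, φ (psi Y c) = c := fun c => RingHom.congr_fun h1 c
  rwa [h3, h3] at h2

theorem ev_psi (z : Unit → ℂ) (a : Y → ℂ) :
    (MvPolynomial.eval₂Hom (MvPolynomial.eval z) a).comp (psi Y) =
      MvPolynomial.eval (fun o : Option Y => o.elim (z ()) a) := by
  refine MvPolynomial.ringHom_ext (fun c => ?_) fun o => ?_
  · simp [psi]
  · rcases o with _ | y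
    · simp [psi]
    · simp [psi]

/-- the domain in the space of the functions on one point -/
def Dm (U : Set ℂ) : Set (Unit → ℂ) := {x | x () ∈ U}

theorem Dm_open {U : Set ℂ} (hU : IsOpen U) : IsOpen (Dm U) := hU.preimage (continuous_apply ())

theorem Dm_conn {U : Set ℂ} (hU : IsPreconnected U) : IsPreconnected (Dm U) := by
  have h1 : Dm U = (fun (t : ℂ) (_ : Unit) => t) '' U := by
    ext x
    constructor
    · intro hx
      exact ⟨x (), hx, funext fun _ => rfl⟩
    · rintro ⟨t, ht, rfl⟩
      exact ht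
  rw [h1]
  exact hU.image _ (continuous_pi fun _ => continuous_id).continuousOn

theorem Dm_an {U : Set ℂ} {f : ℂ → ℂ} (hf : AnalyticOnNhd ℂ f U) :
    AnalyticOnNhd ℂ (fun x : Unit → ℂ => f (x ())) (Dm U) := by
  intro x hx
  have h1 : AnalyticAt ℂ (fun x : Unit → ℂ => x ()) x :=
    (ContinuousLinearMap.proj (R := ℂ) (φ := fun _ : Unit => ℂ) ()).analyticAt x
  exact AnalyticAt.comp' (hf (x ()) hx) h1

theorem locInd_of_ind [Finite Y] {U : Set ℂ} (hU : IsOpen U) (hc : IsPreconnected U) {f : Y → ℂ → ℂ}
    (hf : ∀ y, AnalyticOnNhd ℂ (f y) U) (hI : N207.AX.Ind (Dm U) (fun y (x : Unit → ℂ) => f y (x ())))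
    {t0 : ℂ} (ht0 : t0 ∈ U) : Y124.LocInd f t0 := by
  intro P hP
  have han : AnalyticOnNhd ℂ (fun t => MvPolynomial.eval (fun o : Option Y => o.elim t fun y => f y t) P) U := by
    intro t ht
    have h0 : ∀ Q : MvPolynomial (Option Y) ℂ,
        AnalyticAt ℂ (fun t => MvPolynomial.eval (fun o : Option Y => o.elim t fun y => f y t) Q) t := by
      intro Q
      induction Q using MvPolynomial.induction_on with
      | C a =>
        simp only [MvPolynomial.eval_C]
        exact analyticAt_const
      | add p q hp hq =>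
        simp only [map_add]
        exact hp.add hq
      | mul_X p o hp =>
        simp only [map_mul, MvPolynomial.eval_X]
        refine hp.mul ?_
        rcases o with _ | y
        · exact analyticAt_id
        · exact hf y t ht
    exact h0 P
  have h1 : ∀ t ∈ U, MvPolynomial.eval (fun o : Option Y => o.elim t fun y => f y t) P = 0 := fun t ht =>
    han.eqOn_zero_of_preconnected_of_eventuallyEq_zero hc ht0 hP ht
  have h2 := hI (psi Y P) (fun z hz => by
    have h3 := RingHom.congr_fun (ev_psi z (fun y => f y (z ()))) P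
    rw [RingHom.comp_apply] at h3
    have h4 : MvPolynomial.eval₂ (MvPolynomial.eval z) (fun y => f y (z ())) (psi Y P) =
        MvPolynomial.eval (fun o : Option Y => o.elim (z ()) fun y => f y (z ())) P := h3
    rw [h4]
    exact h1 (z ()) hz)
  exact psi_inj (by rw [h2, map_zero])

/-- the coordinates of the exponential point -/
noncomputable def point {n : ℕ} (z : Fin n → ℂ → ℂ) (i : Fin n ⊕ Fin n) (x : ℂ) : ℂ :=
  Sum.elim (fun i => z i x) (fun i => Complex.exp (z i x)) i

theorem point_an {n : ℕ} {U : Set ℂ} {z : Fin n → ℂ → ℂ} (ha : ∀ i, AnalyticOnNhd ℂ (z i) U) (i : Fin n ⊕ Fin n) :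
    AnalyticOnNhd ℂ (point z i) U := by
  rcases i with i | i
  · exact ha i
  · exact (ha i).cexp

/-- **independence of the coordinates of exponential points of one-parameter families of varieties of dimension `n`** -/
theorem exp_locInd {n : ℕ} {U : Set ℂ} {z : Fin n → ℂ → ℂ} {b : Fin n → Fin n ⊕ Fin n} (hU : IsOpen U)
    (hc : IsPreconnected U) (ha : ∀ i, AnalyticOnNhd ℂ (z i) U)
    (hi : ∀ (m : Fin n → ℤ) (c : ℂ), (∀ x ∈ U, ∑ i, (m i : ℂ) * z i x = c) → m = 0)
    (hb : ∀ i, ∃ Q : Polynomial (MvPolynomial (Option (Fin n)) ℂ),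
      (∃ x ∈ U, Q.map (MvPolynomial.eval fun o : Option (Fin n) => o.elim x fun k => point z (b k) x) ≠ 0) ∧
      ∀ x ∈ U, Q.eval₂ (MvPolynomial.eval fun o : Option (Fin n) => o.elim x fun k => point z (b k) x)
        (point z i x) = 0) {t0 : ℂ} (ht0 : t0 ∈ U) :
    Y124.LocInd (fun k => point z (b k)) t0 := by
  classical
  have hne : (Dm U).Nonempty := ⟨fun _ => t0, ht0⟩
  obtain ⟨e, he, hI⟩ := N207.AX.exp_ind (N945.AX.ell (N301.AX.ind N878.AX.line)) (Dm_open hU) (Dm_conn hc) hne
    (t := fun k (x : Unit → ℂ) => z k (x ())) (fun k => Dm_an (ha k)) (fun m c hm => hi m c fun x hx =>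
      hm (fun _ => x) hx)
  have h2 := N207.ZG.basis (f := fun i (x : Unit → ℂ) => point z i (x ())) (Dm_open hU) (Dm_conn hc) hne
    (fun i => Dm_an (point_an ha i)) (e := e) (b := b) (by
      intro p hp
      exact hI p fun x hx => hp x hx) (fun i => by
      obtain ⟨Q, ⟨x, hx, hQ⟩, hQ2⟩ := hb i
      refine ⟨Q.map (psi (Fin n)), ⟨fun _ => x, hx, ?_⟩, fun w hw => ?_⟩
      · rw [Polynomial.map_map]
        have h3 := ev_psi (Y := Fin n) (fun _ : Unit => x) (fun k => point z (b k) x)
        have h4 : (N207.ZG.sp (fun _ : Unit => x) fun k => point z (b k) x).comp (psi (Fin n)) =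
            MvPolynomial.eval (fun o : Option (Fin n) => o.elim x fun k => point z (b k) x) := h3
        rw [h4]
        exact hQ
      · rw [Polynomial.eval₂_map]
        have h3 := ev_psi (Y := Fin n) w (fun k => point z (b k) (w ()))
        have h4 : (N207.ZG.sp w fun k => point z (b k) (w ())).comp (psi (Fin n)) =
            MvPolynomial.eval (fun o : Option (Fin n) => o.elim (w ()) fun k => point z (b k) (w ())) := h3
        rw [h4]
        exact hQ2 (w ()) hw)
  exact locInd_of_ind hU hc (fun k => point_an ha (b k)) h2 ht0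

end Pool.Agent.Zk43.ExpOne
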